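import Pool.Agent.Helper45.U4.St3

/-!
# Project U4 (MP_a1f43d_co), module HLN: heavy lines
-/

set_option autoImplicit false

open Module Classical
open scoped LinearAlgebra.Projectivization

namespace Pool.Agent.Helper64.U4

open Pool.Agent.Helper45.U4 Pool.Agent.Helper53.PB

/-- A point on a generator of weight one has small `s4`. -/
private theorem hln_le {F V : Type} [Field F] [AddCommGroup V] [Module F V] [Finite F] [Finite V]
    [FiniteDimensional F V] (h1 : StHNB) (h2 : StRFO) (φ : Form F V) (f : ℙ F V → ℤ)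
    (hs : Hs φ 4) (hsup : Sup φ.toPolar f) (hf : ∀ U, φ.toPolar.Gen U → 1 ≤ tf f U)
    (X : ℙ F V) (U : Submodule F V) (hU : φ.toPolar.Gen U) (hX : X.rep ∈ U) (ht : tf f U < 2) :
    s4 φ.toPolar f X ≤ ∑ y, f y - 129 := by
  obtain ⟨N⟩ := h1 φ 4 hs U hU
  obtain ⟨⟨e1, -⟩, e2, -⟩ := (h2 φ f hs hsup).1 U hU N
  obtain ⟨e3, -⟩ := e2 X hX
  have ht1 : tf f U = 1 := le_antisymm (by omega) (hf U hU)
  rw [ht1] at e1 e3
  have h3 : ∑ p ∈ Finset.univ.filter (fun p => X.rep ∈ N.nb p), (tf f (N.nb p) - 1) ≤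
      ∑ p, (tf f (N.nb p) - 1) := by
    apply Finset.sum_le_sum_of_subset_of_nonneg (Finset.filter_subset _ _)
    intro p _ _
    have := hf _ (N.gen p)
    omega
  rw [e1, e3] at h3
  linarith

/-- HLN: heavy lines. -/
theorem hHLN (h1 : StHNB) (h2 : StRFO) (h3 : StHRS) (h4 : StHVY) (h5 : StPSH) : StHLN := by
  intro F V _ _ _ _ _ _ φ f hs hsup hf htot R hR hfR hs1 hs2
  by_contra hcon
  push Not at hcon
  -- the residue of `R`
  obtain ⟨w, hw⟩ := exists_pair φ hR R.rep_nonzero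
  obtain ⟨hs0, hlift⟩ := h3 φ 3 hs R.rep w hR hw
  have hres := resForm_isRes φ hR hw
  obtain ⟨g1, g2, g3, -⟩ := h5 _ _ _ R w hres f hsup
  obtain ⟨g, hg⟩ : ∃ g, g = pu (perp2 φ R.rep w).subtype R.rep f := ⟨_, rfl⟩
  rw [← hg] at g1 g2 g3
  have hnf : nf φ.toPolar f R = s4 φ.toPolar f R + 33 := by
    unfold s4
    rw [hfR]
    ring
  have hg34 : ∑ Q, g Q = 34 ∨ ∑ Q, g Q = 35 := by
    rw [hfR, hnf] at g3
    omega
  obtain ⟨Q, hQs, hQ⟩ := h4 (resForm φ hR hw) g hs0 g1 (fun W0 hW0 => by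
    have e1 := g2 W0
    have e2 := hf _ (hres.lift_gen hW0)
    omega) hg34
  -- the line `L`
  obtain ⟨L, hL⟩ : ∃ L, L = IsRes.lift (perp2 φ R.rep w).subtype R.rep
    (Submodule.span F {Q.rep}) := ⟨_, rfl⟩
  have hRL : R.rep ∈ L := by
    rw [hL, IsRes.mem_lift]
    exact ⟨0, zero_mem _, 1, by simp⟩
  have hQL : (perp2 φ R.rep w).subtype Q.rep ∈ L := by
    rw [hL, IsRes.mem_lift]
    exact ⟨Q.rep, Submodule.mem_span_singleton_self _, 0, by simp⟩
  have hL2 : finrank F L = 2 := by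
    rw [hL, hres.finrank_lift, finrank_span_singleton Q.rep_nonzero]
  have hLg : ∃ U, φ.toPolar.Gen U ∧ L ≤ U := by
    obtain ⟨W0, hW0, hle⟩ := Polar.exists_gen_ge (span_ts (P := (resForm φ hR hw).toPolar) hQs)
    refine ⟨_, hres.lift_gen hW0, ?_⟩
    rw [hL]
    intro x hx
    rw [IsRes.mem_lift] at hx ⊢
    obtain ⟨u, hu, c, rfl⟩ := hx
    exact ⟨u, hle hu, c, rfl⟩
  have hheavy : ∀ U, φ.toPolar.Gen U → L ≤ U → 2 ≤ tf f U := by
    intro U hU hLU
    obtain ⟨W0, hW0, hWU⟩ := hlift U hU (hLU hRL)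
    have h6 : Q.rep ∈ W0 := by
      have h7 := hLU hQL
      rw [← hWU, IsRes.mem_lift] at h7
      obtain ⟨u, hu, c, hc⟩ := h7
      rw [(hres.coef_zero hc).2]
      exact hu
    have h7 := hQ W0 hW0 h6
    have h8 := g2 W0
    rw [hWU, hfR] at h8
    omega
  -- a generator of smallest weight on `L`
  obtain ⟨U, ⟨hU, hLU⟩, hmin⟩ := WellFounded.has_min
    (measure (fun U : Submodule F V => (tf f U).toNat)).wf {U | φ.toPolar.Gen U ∧ L ≤ U} hLg
  have hmin2 : ∀ W, φ.toPolar.Gen W → L ≤ W → tf f U ≤ tf f W := by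
    intro W hW hLW
    have h6 : ¬ (tf f W).toNat < (tf f U).toNat := hmin W ⟨hW, hLW⟩
    have h7 := hf W hW
    omega
  have hU2 := hheavy U hU hLU
  obtain ⟨N⟩ := h1 φ 4 hs U hU
  obtain ⟨e1, e2⟩ := (((h2 φ f hs hsup).1 U hU N).2.2 L hLU hL2)
  have h18 : 18 ≤ np φ.toPolar f L + 8 * tf f L := by
    have h6 : (10 : ℤ) * (tf f U - 1) ≤
        ∑ p ∈ Finset.univ.filter (fun p => L ≤ N.nb p), (tf f (N.nb p) - 1) := by
      have h7 := Finset.card_nsmul_le_sum (Finset.univ.filter (fun p => L ≤ N.nb p))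
        (fun p => tf f (N.nb p) - 1) (tf f U - 1) (fun p hp => by
          have := hmin2 _ (N.gen p) (Finset.mem_filter.1 hp).2
          omega)
      rw [e2, nsmul_eq_mul] at h7
      exact_mod_cast h7
    rw [e1] at h6
    omega
  have h36 := (h2 φ f hs hsup).2 L hL2
  -- the sum over `L`
  have hcard : (pts L).card = 5 := by
    rw [card_pts, hs.card, hL2, geo_two]
  have hRm : R ∈ pts L := mem_pts.2 hRL
  have hsum := Finset.add_sum_erase (pts L) (fun X => s4 φ.toPolar f X) hRm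
  have hle : ∑ X ∈ (pts L).erase R, s4 φ.toPolar f X ≤ 4 * (∑ y, f y - 129) := by
    have h7 := Finset.sum_le_card_nsmul ((pts L).erase R) (fun X => s4 φ.toPolar f X)
      (∑ y, f y - 129) (fun X hX => by
        have hXL : X.rep ∈ L := mem_pts.1 (Finset.mem_erase.1 hX).2
        have hXs : φ.Sing X.rep := hU.1.1 _ (hLU hXL)
        obtain ⟨W, hW, hXW, hlt⟩ := hcon X hXs
        exact hln_le h1 h2 φ f hs hsup hf X W hW hXW hlt)
    rw [Finset.card_erase_of_mem hRm, hcard, nsmul_eq_mul] at h7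
    exact_mod_cast h7
  omega

end Pool.Agent.Helper64.U4
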